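import Mathlib
import Pool.Agent.H592S.Model
import Pool.Agent.H592S.WD

set_option autoImplicit false
open MeasureTheory ProbabilityTheory

namespace Pool.Agent.Results.MP_668046_pr.StirringNotSharp

open Pool.Agent.H592S

/-- The random stirring model is well defined on `G`: for every `T > 0`, almost surely, from every
space-time point there is exactly one next piece of trajectory, and every trajectory reaches time
`T` (and restarts at time `0` at its current vertex) again and again. So every trajectory makes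
finitely many jumps in every bounded time interval. -/
def WellDefined {V : Type} (G : SimpleGraph V) : Prop :=
  ∀ T : ℝ, 0 < T → ∀ᵐ ω ∂(stirLaw V T), (∀ a : V × ℝ, ∃! b, Step G T ω a b) ∧
    ∀ y : ℕ → V × ℝ, (∀ m, Step G T ω (y m) (y (m + 1))) →
      ∀ m, ∃ m' ≥ m, (y (m' + 1)).1 = (y m').1 ∧ (y (m' + 1)).2 = 0

/-- The lower critical parameter: the infimum of `infiniteSet G`. -/
noncomputable def Tc1 {V : Type} (G : SimpleGraph V) : EReal :=
  sInf ((fun t : ℝ => (t : EReal)) '' infiniteSet G)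

/-- The upper critical parameter: the supremum of the complement of `infiniteSet G` in
`[0, ∞)`. -/
noncomputable def Tc2 {V : Type} (G : SimpleGraph V) : EReal :=
  sSup ((fun t : ℝ => (t : EReal)) '' {t | 0 ≤ t ∧ t ∉ infiniteSet G})

theorem wellDefined_tree (J n N : ℕ) : WellDefined (treeG J n N) := by
  intro T hT
  filter_upwards [regular_ae (treeG J n N) hT, chain_ae (J := J) (n := n) (N := N) hT] with ω hR hC
  constructor
  · intro a
    obtain ⟨b, hb⟩ := step_exists (finBars T ω) a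
    exact ⟨b, hb, fun c hc => step_det hR hc hb⟩
  · intro y hy m
    obtain ⟨k, hk⟩ := noinc (finBars T ω) hC (fun k => y (m + k)) fun k => hy (m + k)
    refine ⟨m + k, by omega, ?_⟩
    rcases hy (m + k) with ⟨h1, -⟩ | ⟨h1, h2, -⟩
    · exact absurd h1 hk
    · exact ⟨h1, h2⟩

/-- There is a connected graph of bounded degree on which the random stirring model is well defined
and for which the transition to infinite cycles is not sharp: for some `0 < T₁ < T₂` there are
almost surely infinite cycles at the parameter `T₁`, and almost surely none at the parameter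
`T₂`. -/
theorem result : ∃ (V : Type) (_ : Countable V) (G : SimpleGraph V), G.Connected ∧
    (∃ D : ℕ, ∀ v, (G.neighborSet v).encard ≤ D) ∧ WellDefined G ∧
    (infiniteSet G).Nonempty ∧ Tc1 G < Tc2 G ∧
    ∃ T₁ T₂ : ℝ, 0 < T₁ ∧ T₁ < T₂ ∧ T₁ ∈ infiniteSet G ∧ T₂ ∉ infiniteSet G ∧
      ∀ᵐ ω ∂(stirLaw V T₂), ∀ v, (stirCycle G T₂ ω v).Finite := by
  obtain ⟨n, hn⟩ : ∃ n : ℕ, (n : ℝ) = 2 ^ 100 := ⟨2 ^ 100, by norm_num⟩
  obtain ⟨J, hJ⟩ : ∃ J : ℕ, (J : ℝ) = 2 ^ 68 := ⟨2 ^ 68, by norm_num⟩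
  obtain ⟨N, hN⟩ : ∃ N : ℕ, (N : ℝ) = 2 ^ 100 + 7 * 2 ^ 83 :=
    ⟨2 ^ 100 + 7 * 2 ^ 83, by norm_num⟩
  have h1 := low_side hJ hn hN
  have h2 := high_side hJ hn hN
  have h3 := not_mem_of_finite h2
  have h0 : (0 : ℝ) < (1 - 1 / 2 ^ 16) / 2 ^ 100 := by norm_num
  have h12 : ((1 - 1 / 2 ^ 16) / 2 ^ 100 : ℝ) < (1 - 1 / 2 ^ 28) / 2 ^ 100 := by norm_num
  refine ⟨TV J n N, inferInstance, treeG J n N, tree_connected, tree_degree, wellDefined_tree J n N,
    ⟨_, h1⟩, ?_, _, _, h0, h12, h1, h3, h2⟩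
  have h4 : Tc1 (treeG J n N) ≤ (((1 - 1 / 2 ^ 16) / 2 ^ 100 : ℝ) : EReal) :=
    sInf_le ⟨_, h1, rfl⟩
  have h5 : (((1 - 1 / 2 ^ 28) / 2 ^ 100 : ℝ) : EReal) ≤ Tc2 (treeG J n N) :=
    le_sSup ⟨_, ⟨(h0.trans h12).le, h3⟩, rfl⟩
  exact lt_of_le_of_lt h4 (lt_of_lt_of_le (EReal.coe_lt_coe_iff.mpr h12) h5)

end Pool.Agent.Results.MP_668046_pr.StirringNotSharp
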